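import Pool.Agent.H98.AO.ZStmts

/-!
ZFV: countable elementary submodels of the class of all sets of Lean, containing given sets.
-/

set_option linter.unusedVariables false
set_option synthInstance.maxSize 100000

namespace AO

open SW

variable {S : ℕ → ZFSet.{0}}

/-- the stages of the Skolem hull -/
noncomputable def stv (S : ℕ → ZFSet.{0}) : ℕ → Set ZFSet.{0}
  | 0 => Set.range S
  | k + 1 => stv S k ∪ ⋃ n : ℕ, ⋃ f : Fml (n + 1),
      Set.range (fun v : Fin n → stv S k => skz f (fun i => (v i : ZFSet.{0})))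

theorem stv_countable : ∀ k, (stv S k).Countable
  | 0 => Set.countable_range S
  | k + 1 => by
      have : Countable (stv S k) := (stv_countable k).to_subtype
      refine (stv_countable k).union (Set.countable_iUnion fun n =>
        Set.countable_iUnion fun f => ?_)
      have h3 : Countable (Fin n → stv S k) := inferInstance
      exact Set.countable_range _

theorem stv_mono {k l : ℕ} (h : k ≤ l) : stv S k ⊆ stv S l := by
  induction h with
  | refl => exact subset_rfl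
  | step _ ih => exact ih.trans Set.subset_union_left

/-- the Skolem hull of the empty set, as a set -/
def hlv (S : ℕ → ZFSet.{0}) : Set ZFSet.{0} := ⋃ k, stv S k

instance : Countable (hlv S) := (Set.countable_iUnion stv_countable).to_subtype

/-- the Skolem hull of the empty set -/
def HullV (S : ℕ → ZFSet.{0}) : Type := Shrink.{0} (hlv S)

/-- the inclusion of the hull -/
noncomputable def iv (x : HullV S) : ZFSet.{0} := ((equivShrink.{0} (hlv S)).symm x).1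

theorem iv_mem (x : HullV S) : iv x ∈ (hlv S) := ((equivShrink.{0} (hlv S)).symm x).2

theorem iv_inj {x y : (HullV S)} (h : iv x = iv y) : x = y :=
  (equivShrink.{0} (hlv S)).symm.injective (Subtype.ext h)

theorem iv_surj {x : ZFSet.{0}} (h : x ∈ (hlv S)) : ∃ y : HullV S, iv y = x :=
  ⟨equivShrink.{0} (hlv S) ⟨x, h⟩, by simp [iv]⟩

noncomputable instance : SetStr (HullV S) where
  mem x y := iv x ∈ iv y

instance : Countable (HullV S) := Countable.of_equiv _ (equivShrink.{0} (hlv S))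

theorem skv_mem {n : ℕ} (f : Fml (n + 1)) (v : Fin n → (HullV S)) :
    ∃ y : HullV S, iv y = skz f (fun i => iv (v i)) := by
  refine iv_surj ?_
  have h0 : ∀ i, ∃ k, iv (v i) ∈ stv S k := fun i => by
    have := iv_mem (v i)
    simpa [hlv] using this
  choose g hg using h0
  obtain ⟨k, hk⟩ : ∃ k, ∀ i, g i ≤ k := by
    refine ⟨Finset.univ.sup g, fun i => Finset.le_sup (Finset.mem_univ i)⟩
  have : skz f (fun i => iv (v i)) ∈ stv S (k + 1) := by
    refine Or.inr ?_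
    refine Set.mem_iUnion.2 ⟨n, Set.mem_iUnion.2 ⟨f, ⟨fun i => ⟨iv (v i), ?_⟩, rfl⟩⟩⟩
    exact stv_mono (hk i) (hg i)
  exact Set.mem_iUnion.2 ⟨k + 1, this⟩

theorem iv_cons {n : ℕ} (x : HullV S) (v : Fin n → (HullV S)) :
    (fun i => iv ((Fin.cons x v : Fin _ → (HullV S)) i))
      = (Fin.cons (iv x) (fun i => iv (v i)) : Fin _ → ZFSet.{0}) := by
  funext i
  refine Fin.cases ?_ (fun j => ?_) i <;> rfl

theorem hullv_sat : ∀ {n : ℕ} (f : Fml n) (v : Fin n → (HullV S)),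
    Sat f v ↔ SatZ f (fun i => iv (v i))
  | _, .mem i j, v => Iff.rfl
  | _, .eq i j, v => by
      simp only [Sat, SatZ]
      exact ⟨fun h => by rw [h], iv_inj⟩
  | _, .bot, v => Iff.rfl
  | _, .imp f g, v => by
      simp only [Sat, SatZ]
      rw [hullv_sat f v, hullv_sat g v]
  | _, .all f, v => by
      simp only [Sat, SatZ]
      constructor
      · intro h
        by_contra hx
        push Not at hx
        obtain ⟨x, hx⟩ := hx
        have h2 : SatZ (.imp f .bot) (Fin.cons x (fun i => iv (v i))) := hx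
        have h3 := skz_spec h2
        obtain ⟨x0, hx0⟩ := skv_mem (.imp f .bot) v
        have h4 := (hullv_sat f _).1 (h x0)
        rw [iv_cons, hx0] at h4
        exact h3 h4
      · intro h x
        rw [hullv_sat f, iv_cons]
        exact h (iv x)

/-- the same formula defines `Q` in the hull and `R` in the class of all sets -/
class UV {n : ℕ} (Q : (Fin n → HullV S) → Prop) (R : (Fin n → ZFSet.{0}) → Prop) : Prop where
  out : ∃ f : Fml n, (∀ v, Q v ↔ Sat f v) ∧ ∀ v, R v ↔ SatZ f v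

theorem UV.elem {n : ℕ} {Q : (Fin n → HullV S) → Prop} {R : (Fin n → ZFSet.{0}) → Prop}
    (h : UV Q R) (v : Fin n → (HullV S)) : Q v ↔ R (fun i => iv (v i)) := by
  obtain ⟨f, h1, h2⟩ := h.out
  rw [h1, h2, hullv_sat]

theorem UV.congr {n : ℕ} {Q Q' : (Fin n → HullV S) → Prop} {R R' : (Fin n → ZFSet.{0}) → Prop}
    (h : UV Q R) (h1 : ∀ v, Q' v ↔ Q v) (h2 : ∀ v, R' v ↔ R v) : UV Q' R' := by
  obtain ⟨f, h3, h4⟩ := h.out
  exact ⟨f, fun v => (h1 v).trans (h3 v), fun v => (h2 v).trans (h4 v)⟩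

instance UV.mem {n : ℕ} (i j : Fin n) : UV (fun v : Fin n → HullV S => E (v i) (v j)) (fun v => v i ∈ v j) :=
  ⟨.mem i j, fun _ => Iff.rfl, fun _ => Iff.rfl⟩

instance UV.eq {n : ℕ} (i j : Fin n) : UV (fun v : Fin n → HullV S => v i = v j) (fun v => v i = v j) :=
  ⟨.eq i j, fun _ => Iff.rfl, fun _ => Iff.rfl⟩

instance UV.bot {n : ℕ} : UV (fun _ : Fin n → HullV S => False) (fun _ => False) :=
  ⟨.bot, fun _ => Iff.rfl, fun _ => Iff.rfl⟩

instance UV.imp {n : ℕ} {Q Q' : (Fin n → HullV S) → Prop} {R R' : (Fin n → ZFSet.{0}) → Prop}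
    [h : UV Q R] [h' : UV Q' R'] : UV (fun v => Q v → Q' v) (fun v => R v → R' v) := by
  obtain ⟨f, h3, h4⟩ := h.out
  obtain ⟨g, h5, h6⟩ := h'.out
  refine ⟨.imp f g, fun v => ?_, fun v => ?_⟩
  · simp only [Sat]
    rw [h3, h5]
  · simp only [SatZ]
    rw [h4, h6]

instance UV.not {n : ℕ} {Q : (Fin n → HullV S) → Prop} {R : (Fin n → ZFSet.{0}) → Prop}
    [h : UV Q R] : UV (fun v => ¬ Q v) (fun v => ¬ R v) :=
  (inferInstance : UV (fun v => Q v → False) (fun v => R v → False)).congr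
    (fun _ => Iff.rfl) (fun _ => Iff.rfl)

instance UV.and {n : ℕ} {Q Q' : (Fin n → HullV S) → Prop} {R R' : (Fin n → ZFSet.{0}) → Prop}
    [h : UV Q R] [h' : UV Q' R'] : UV (fun v => Q v ∧ Q' v) (fun v => R v ∧ R' v) :=
  (inferInstance : UV (fun v => ¬ (Q v → ¬ Q' v)) (fun v => ¬ (R v → ¬ R' v))).congr
    (fun _ => by tauto) (fun _ => by tauto)

instance UV.or {n : ℕ} {Q Q' : (Fin n → HullV S) → Prop} {R R' : (Fin n → ZFSet.{0}) → Prop}
    [h : UV Q R] [h' : UV Q' R'] : UV (fun v => Q v ∨ Q' v) (fun v => R v ∨ R' v) :=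
  (inferInstance : UV (fun v => ¬ Q v → Q' v) (fun v => ¬ R v → R' v)).congr
    (fun _ => by tauto) (fun _ => by tauto)

instance UV.iff {n : ℕ} {Q Q' : (Fin n → HullV S) → Prop} {R R' : (Fin n → ZFSet.{0}) → Prop}
    [h : UV Q R] [h' : UV Q' R'] : UV (fun v => Q v ↔ Q' v) (fun v => R v ↔ R' v) :=
  (inferInstance : UV (fun v => (Q v → Q' v) ∧ (Q' v → Q v))
    (fun v => (R v → R' v) ∧ (R' v → R v))).congr (fun _ => by tauto) (fun _ => by tauto)

instance UV.all {n : ℕ} {Q : (HullV S) → (Fin n → HullV S) → Prop}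
    {R : ZFSet.{0} → (Fin n → ZFSet.{0}) → Prop}
    [h : UV (fun w : Fin (n + 1) → (HullV S) => Q (w 0) (fun i => w i.succ))
      (fun w => R (w 0) (fun i => w i.succ))] :
    UV (fun v => ∀ x, Q x v) (fun v => ∀ x, R x v) := by
  obtain ⟨f, h3, h4⟩ := h.out
  refine ⟨.all f, fun v => ?_, fun v => ?_⟩
  · simp only [Sat]
    refine forall_congr' fun x => ?_
    rw [← h3]
    simp
  · simp only [SatZ]
    refine forall_congr' fun x => ?_
    rw [← h4]
    simp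

instance UV.ex {n : ℕ} {Q : (HullV S) → (Fin n → HullV S) → Prop}
    {R : ZFSet.{0} → (Fin n → ZFSet.{0}) → Prop}
    [h : UV (fun w : Fin (n + 1) → (HullV S) => Q (w 0) (fun i => w i.succ))
      (fun w => R (w 0) (fun i => w i.succ))] :
    UV (fun v => ∃ x, Q x v) (fun v => ∃ x, R x v) :=
  (inferInstance : UV (fun v => ¬ ∀ x, ¬ Q x v) (fun v => ¬ ∀ x, ¬ R x v)).congr
    (fun _ => by simp only [not_forall, not_not]) (fun _ => by simp only [not_forall, not_not])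

theorem UV.sat {m k : ℕ} (f : Fml m) (r : Fin m → Fin k) :
    UV (fun w : Fin k → HullV S => Sat f (fun i => w (r i))) (fun w => SatZ f (fun i => w (r i))) :=
  ⟨f.ren r, fun w => (Sat_ren f r w).symm, fun w => (SatZ_ren f r w).symm⟩

theorem UV.sat1 {n k : ℕ} (f : Fml (n + 1)) (a : Fin k) (r : Fin n → Fin k) :
    UV (fun w : Fin k → HullV S => Sat f (Fin.cons (w a) (fun i => w (r i))))
      (fun w => SatZ f (Fin.cons (w a) (fun i => w (r i)))) := by
  refine (UV.sat f (Fin.cons a r)).congr (fun v => ?_) (fun v => ?_)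
  · have : (fun i => v ((Fin.cons a r : Fin (n + 1) → Fin k) i))
        = (Fin.cons (v a) (fun i => v (r i)) : Fin (n + 1) → (HullV S)) := by
      funext i
      refine Fin.cases ?_ (fun j => ?_) i <;> rfl
    rw [this]
  · have : (fun i => v ((Fin.cons a r : Fin (n + 1) → Fin k) i))
        = (Fin.cons (v a) (fun i => v (r i)) : Fin (n + 1) → ZFSet.{0}) := by
      funext i
      refine Fin.cases ?_ (fun j => ?_) i <;> rfl
    rw [this]

theorem UV.sat2 {n k : ℕ} (f : Fml (n + 2)) (a b : Fin k) (r : Fin n → Fin k) :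
    UV (fun w : Fin k → HullV S =>
      Sat f (Fin.cons (w a) (Fin.cons (w b) (fun i => w (r i)))))
      (fun w => SatZ f (Fin.cons (w a) (Fin.cons (w b) (fun i => w (r i))))) := by
  refine (UV.sat f (Fin.cons a (Fin.cons b r))).congr (fun v => ?_) (fun v => ?_)
  · have : (fun i => v ((Fin.cons a (Fin.cons b r) : Fin (n + 2) → Fin k) i))
        = (Fin.cons (v a) (Fin.cons (v b) (fun i => v (r i))) : Fin (n + 2) → (HullV S)) := by
      funext i
      refine Fin.cases ?_ (fun j => ?_) i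
      · rfl
      · refine Fin.cases ?_ (fun j => ?_) j <;> rfl
    rw [this]
  · have : (fun i => v ((Fin.cons a (Fin.cons b r) : Fin (n + 2) → Fin k) i))
        = (Fin.cons (v a) (Fin.cons (v b) (fun i => v (r i))) : Fin (n + 2) → ZFSet.{0}) := by
      funext i
      refine Fin.cases ?_ (fun j => ?_) i
      · rfl
      · refine Fin.cases ?_ (fun j => ?_) j <;> rfl
    rw [this]

theorem UV.sepF {n : ℕ} (f : Fml (n + 1)) :
    UV (fun w : Fin (n + 1) → (HullV S) => ∃ b, ∀ x, E x b ↔ E x (w 0) ∧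
      Sat f (Fin.cons x (fun i => w i.succ))) (fun w : Fin (n + 1) → ZFSet.{0} =>
      ∃ b : ZFSet.{0}, ∀ x, x ∈ b ↔ x ∈ (w 0) ∧ SatZ f (Fin.cons x (fun i => w i.succ))) := by
  have h1 := UV.sat1 (S := S) f (k := n + 1 + 1 + 1) 0 (fun i => i.succ.succ.succ)
  have h2 := UV.iff (h := UV.mem (n := n + 1 + 1 + 1) 0 1)
    (h' := UV.and (h := UV.mem (n := n + 1 + 1 + 1) 0 (Fin.succ (Fin.succ 0))) (h' := h1))
  exact UV.ex (Q := fun b (w : Fin (n + 1) → (HullV S)) => ∀ x, E x b ↔ E x (w 0) ∧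
      Sat f (Fin.cons x (fun i => w i.succ)))
    (R := fun b (w : Fin (n + 1) → ZFSet.{0}) => ∀ x, x ∈ b ↔ x ∈ (w 0) ∧
      SatZ f (Fin.cons x (fun i => w i.succ)))
    (h := UV.all (Q := fun x (w : Fin (n + 1 + 1) → (HullV S)) => E x (w 0) ↔ E x (w (Fin.succ 0)) ∧
      Sat f (Fin.cons x (fun i => w i.succ.succ)))
    (R := fun x (w : Fin (n + 1 + 1) → ZFSet.{0}) => x ∈ (w 0) ↔ x ∈ (w (Fin.succ 0)) ∧
      SatZ f (Fin.cons x (fun i => w i.succ.succ))) (h := h2))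

theorem UV.repF {n : ℕ} (f : Fml (n + 2)) :
    UV (fun w : Fin (n + 1) → (HullV S) =>
      (∀ x, E x (w 0) → ∃ y, Sat f (Fin.cons x (Fin.cons y (fun i => w i.succ))) ∧
        ∀ y', Sat f (Fin.cons x (Fin.cons y' (fun i => w i.succ))) → y' = y) →
      ∃ b, ∀ y, E y b ↔ ∃ x, E x (w 0) ∧ Sat f (Fin.cons x (Fin.cons y (fun i => w i.succ))))
      (fun w : Fin (n + 1) → ZFSet.{0} =>
      (∀ x, x ∈ (w 0) → ∃ y, SatZ f (Fin.cons x (Fin.cons y (fun i => w i.succ))) ∧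
        ∀ y', SatZ f (Fin.cons x (Fin.cons y' (fun i => w i.succ))) → y' = y) →
      ∃ b : ZFSet.{0}, ∀ y, y ∈ b ↔ ∃ x, x ∈ (w 0) ∧
        SatZ f (Fin.cons x (Fin.cons y (fun i => w i.succ)))) := by
  have h1 := UV.sat2 (S := S) f (k := n + 1 + 1 + 1) 1 0 (fun i => i.succ.succ.succ)
  have h2 := UV.sat2 (S := S) f (k := n + 1 + 1 + 1 + 1) (Fin.succ (Fin.succ 0)) 0
    (fun i => i.succ.succ.succ.succ)
  have g1 : UV (fun (w : Fin (n + 1 + 1 + 1) → (HullV S)) => ∀ y' : (HullV S),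
      Sat f (Fin.cons (w (Fin.succ 0)) (Fin.cons y' (fun i => w i.succ.succ.succ))) →
        y' = w 0) (fun (w : Fin (n + 1 + 1 + 1) → ZFSet.{0}) => ∀ y' : ZFSet.{0},
      SatZ f (Fin.cons (w (Fin.succ 0)) (Fin.cons y' (fun i => w i.succ.succ.succ))) →
        y' = w 0) :=
    UV.all (Q := fun y' (w : Fin (n + 1 + 1 + 1) → (HullV S)) =>
      Sat f (Fin.cons (w (Fin.succ 0)) (Fin.cons y' (fun i => w i.succ.succ.succ))) →
        y' = w 0) (R := fun y' (w : Fin (n + 1 + 1 + 1) → ZFSet.{0}) =>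
      SatZ f (Fin.cons (w (Fin.succ 0)) (Fin.cons y' (fun i => w i.succ.succ.succ))) →
        y' = w 0)
      (h := UV.imp (h := h2) (h' := UV.eq (n := n + 1 + 1 + 1 + 1) 0 (Fin.succ 0)))
  have g2 : UV (fun (w : Fin (n + 1 + 1) → (HullV S)) => ∃ y : HullV S,
      Sat f (Fin.cons (w 0) (Fin.cons y (fun i => w i.succ.succ))) ∧ ∀ y' : (HullV S),
      Sat f (Fin.cons (w 0) (Fin.cons y' (fun i => w i.succ.succ))) → y' = y)
      (fun (w : Fin (n + 1 + 1) → ZFSet.{0}) => ∃ y : ZFSet.{0},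
      SatZ f (Fin.cons (w 0) (Fin.cons y (fun i => w i.succ.succ))) ∧ ∀ y' : ZFSet.{0},
      SatZ f (Fin.cons (w 0) (Fin.cons y' (fun i => w i.succ.succ))) → y' = y) :=
    UV.ex (Q := fun y (w : Fin (n + 1 + 1) → (HullV S)) =>
      Sat f (Fin.cons (w 0) (Fin.cons y (fun i => w i.succ.succ))) ∧ ∀ y' : (HullV S),
      Sat f (Fin.cons (w 0) (Fin.cons y' (fun i => w i.succ.succ))) → y' = y)
      (R := fun y (w : Fin (n + 1 + 1) → ZFSet.{0}) =>
      SatZ f (Fin.cons (w 0) (Fin.cons y (fun i => w i.succ.succ))) ∧ ∀ y' : ZFSet.{0},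
      SatZ f (Fin.cons (w 0) (Fin.cons y' (fun i => w i.succ.succ))) → y' = y)
      (h := UV.and (h := h1) (h' := g1))
  have g3 := UV.all (Q := fun x (w : Fin (n + 1) → (HullV S)) => E x (w 0) → ∃ y : HullV S,
      Sat f (Fin.cons x (Fin.cons y (fun i => w i.succ))) ∧ ∀ y' : (HullV S),
      Sat f (Fin.cons x (Fin.cons y' (fun i => w i.succ))) → y' = y)
      (R := fun x (w : Fin (n + 1) → ZFSet.{0}) => x ∈ (w 0) → ∃ y : ZFSet.{0},
      SatZ f (Fin.cons x (Fin.cons y (fun i => w i.succ))) ∧ ∀ y' : ZFSet.{0},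
      SatZ f (Fin.cons x (Fin.cons y' (fun i => w i.succ))) → y' = y)
      (h := UV.imp (h := UV.mem (n := n + 1 + 1) 0 (Fin.succ 0)) (h' := g2))
  have g4 := UV.ex (Q := fun x (w : Fin (n + 1 + 1 + 1) → (HullV S)) =>
      E x (w (Fin.succ (Fin.succ 0))) ∧
      Sat f (Fin.cons x (Fin.cons (w 0) (fun i => w i.succ.succ.succ))))
      (R := fun x (w : Fin (n + 1 + 1 + 1) → ZFSet.{0}) =>
      x ∈ (w (Fin.succ (Fin.succ 0))) ∧
      SatZ f (Fin.cons x (Fin.cons (w 0) (fun i => w i.succ.succ.succ))))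
      (h := UV.and (h := UV.mem (n := n + 1 + 1 + 1 + 1) 0 (Fin.succ (Fin.succ (Fin.succ 0))))
        (h' := UV.sat2 f (k := n + 1 + 1 + 1 + 1) 0 (Fin.succ 0)
          (fun i => i.succ.succ.succ.succ)))
  have g5 := UV.ex (Q := fun b (w : Fin (n + 1) → (HullV S)) => ∀ y : HullV S, E y b ↔
      ∃ x : (HullV S), E x (w 0) ∧ Sat f (Fin.cons x (Fin.cons y (fun i => w i.succ))))
      (R := fun b (w : Fin (n + 1) → ZFSet.{0}) => ∀ y : ZFSet.{0}, y ∈ b ↔
      ∃ x : ZFSet.{0}, x ∈ (w 0) ∧ SatZ f (Fin.cons x (Fin.cons y (fun i => w i.succ))))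
      (h := UV.all (Q := fun y (w : Fin (n + 1 + 1) → (HullV S)) => E y (w 0) ↔
        ∃ x : (HullV S), E x (w (Fin.succ 0)) ∧
          Sat f (Fin.cons x (Fin.cons y (fun i => w i.succ.succ))))
        (R := fun y (w : Fin (n + 1 + 1) → ZFSet.{0}) => y ∈ (w 0) ↔
        ∃ x : ZFSet.{0}, x ∈ (w (Fin.succ 0)) ∧
          SatZ f (Fin.cons x (Fin.cons y (fun i => w i.succ.succ))))
        (h := UV.iff (h := UV.mem (n := n + 1 + 1 + 1) 0 (Fin.succ 0)) (h' := g4)))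
  exact UV.imp (h := g3) (h' := g5)

instance : ZF (HullV S) where
  ext x y := ((inferInstance : UV (fun w : Fin 2 → (HullV S) => (∀ z, E z (w 0) ↔ E z (w 1)) →
      w 0 = w 1) (fun w : Fin 2 → ZFSet.{0} => (∀ z, z ∈ (w 0) ↔ z ∈ (w 1)) →
      w 0 = w 1)).elem ![x, y]).2 (fun h => ZFSet.ext h)
  found x := ((inferInstance : UV (fun w : Fin 1 → (HullV S) => (∃ y, E y (w 0)) → ∃ y, E y (w 0) ∧
      ∀ z, E z (w 0) → ¬ E z y) (fun w : Fin 1 → ZFSet.{0} => (∃ y, y ∈ (w 0)) → ∃ y, y ∈ (w 0) ∧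
      ∀ z, z ∈ (w 0) → ¬ z ∈ y)).elem ![x]).2 (fun ⟨y, hy⟩ => by
      obtain ⟨z, hz, h⟩ := ZFSet.regularity _ (ne_of_mem_of_not_mem' hy (ZFSet.notMem_empty y))
      refine ⟨z, hz, fun u hu hu' => ?_⟩
      have : u ∈ (∅ : ZFSet) := h ▸ ZFSet.mem_inter.2 ⟨hu, hu'⟩
      exact ZFSet.notMem_empty u this)
  pair x y := ((inferInstance : UV (fun w : Fin 2 → (HullV S) => ∃ z, ∀ u, E u z ↔ u = w 0 ∨ u = w 1)
      (fun w : Fin 2 → ZFSet.{0} => ∃ z, ∀ u, u ∈ z ↔ u = w 0 ∨ u = w 1)).elem ![x, y]).2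
      ⟨{iv x, iv y}, fun u => ZFSet.mem_pair⟩
  union x := ((inferInstance : UV (fun w : Fin 1 → (HullV S) => ∃ u, ∀ z, E z u ↔
      ∃ y, E y (w 0) ∧ E z y) (fun w : Fin 1 → ZFSet.{0} => ∃ u, ∀ z, z ∈ u ↔ ∃ y, y ∈ (w 0) ∧ z ∈ y)).elem ![x]).2
      ⟨ZFSet.sUnion (iv x), fun u => ZFSet.mem_sUnion⟩
  power x := ((inferInstance : UV (fun w : Fin 1 → (HullV S) => ∃ p, ∀ u, E u p ↔
      ∀ z, E z u → E z (w 0)) (fun w : Fin 1 → ZFSet.{0} => ∃ p, ∀ u, u ∈ p ↔ ∀ z, z ∈ u → z ∈ (w 0))).elem ![x]).2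
      ⟨ZFSet.powerset (iv x), fun u => by
        rw [ZFSet.mem_powerset]
        exact Iff.rfl⟩
  infinity := ((inferInstance : UV (fun w : Fin 0 → (HullV S) => ∃ x : (HullV S), (∃ e : (HullV S), E e x ∧ ∀ z : (HullV S), ¬ E z e) ∧
      ∀ y, E y x → ∃ s, E s x ∧ ∀ u, E u s ↔ E u y ∨ u = y)
      (fun w : Fin 0 → ZFSet.{0} => ∃ x : ZFSet.{0}, (∃ e : ZFSet.{0}, e ∈ x ∧ ∀ z : ZFSet.{0}, ¬ z ∈ e) ∧
      ∀ y, y ∈ x → ∃ s, s ∈ x ∧ ∀ u, u ∈ s ↔ u ∈ y ∨ u = y)).elem ![]).2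
      ⟨ZFSet.omega, ⟨∅, ZFSet.omega_zero, ZFSet.notMem_empty⟩, fun y hy =>
        ⟨insert y y, ZFSet.omega_succ hy, fun u => by
          rw [ZFSet.mem_insert_iff]
          exact or_comm⟩⟩
  sep n f v a := by
    have h2 := ((UV.sepF f).elem (Fin.cons a v)).2 ⟨ZFSet.sep (fun x => SatZ f (Fin.cons x
      (fun i => iv (v i)))) (iv a), fun x => ZFSet.mem_sep⟩
    exact h2
  repl n f v a hf := by
    have h2 := ((UV.repF f).elem (Fin.cons a v)).2 (fun h => by
      choose! g hg using h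
      refine ⟨ZFSet.range (fun x : Shrink.{0} {x // x ∈ iv a} =>
        g ((equivShrink.{0} {x // x ∈ iv a}).symm x).1), fun y => ?_⟩
      rw [ZFSet.mem_range]
      constructor
      · rintro ⟨x, rfl⟩
        exact ⟨_, ((equivShrink.{0} {x // x ∈ iv a}).symm x).2,
          (hg _ ((equivShrink.{0} {x // x ∈ iv a}).symm x).2).1⟩
      · rintro ⟨x, hx, h⟩
        refine ⟨equivShrink.{0} {x // x ∈ iv a} ⟨x, hx⟩, ?_⟩
        rw [Equiv.symm_apply_apply]
        exact ((hg x hx).2 y h).symm)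
    exact h2 hf

noncomputable instance : ZFC (HullV S) := by
  refine { toZF := inferInstance, choice := fun x => ?_ }
  refine ((inferInstance : UV (fun w : Fin 1 → (HullV S) => (∀ y, E y (w 0) → ∃ z, E z y) →
    (∀ y y' z, E y (w 0) → E y' (w 0) → E z y → E z y' → y = y') →
    ∃ c, ∀ y, E y (w 0) → ∃ z, (E z y ∧ E z c) ∧ ∀ z', E z' y → E z' c → z' = z)
    (fun w : Fin 1 → ZFSet.{0} => (∀ y, y ∈ (w 0) → ∃ z, z ∈ y) →
    (∀ y y' z : ZFSet.{0}, y ∈ (w 0) → y' ∈ (w 0) → z ∈ y → z ∈ y' → y = y') →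
    ∃ c : ZFSet.{0}, ∀ y, y ∈ (w 0) → ∃ z, (z ∈ y ∧ z ∈ c) ∧
      ∀ z', z' ∈ y → z' ∈ c → z' = z)).elem ![x]).2 (fun h1 h2 => ?_)
  choose! g hg using h1
  refine ⟨ZFSet.range (fun y : Shrink.{0} {y // y ∈ iv x} =>
    g ((equivShrink.{0} {y // y ∈ iv x}).symm y).1), fun y hy => ?_⟩
  refine ⟨g y, ⟨hg y hy, ZFSet.mem_range.2 ⟨equivShrink.{0} {y // y ∈ iv x} ⟨y, hy⟩, ?_⟩⟩,
    fun z hz hz' => ?_⟩
  · rw [Equiv.symm_apply_apply]
  · obtain ⟨u, hu⟩ := ZFSet.mem_range.1 hz'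
    have h3 := ((equivShrink.{0} {y // y ∈ iv x}).symm u).2
    have h4 := h2 _ y z h3 hy (hu ▸ hg _ h3) hz
    rw [← hu, h4]

theorem zfv : ZFVStmt := fun S =>
  ⟨HullV S, inferInstance, inferInstance, iv, inferInstance, fun _ _ h => iv_inj h,
    fun _ _ => Iff.rfl, fun n => iv_surj (Set.mem_iUnion.2 ⟨0, ⟨n, rfl⟩⟩),
    fun _ f v => hullv_sat f v⟩

end AO
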